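import Mathlib

set_option autoImplicit false

namespace Pool.Agent.Results.MP_6d0d7d_lc.Main

open Set Filter Topology Function Equiv

def ExtAmenable {X : Type} [TopologicalSpace X] (G : Subgroup (Perm X)) : Prop :=
  ∀ (K : Type) [TopologicalSpace K] [CompactSpace K] [T2Space K] [Nonempty K] [MulAction G K],
    (letI : TopologicalSpace G :=
      TopologicalSpace.induced (fun g : G => (g.1 : X → X)) Pi.topologicalSpace
     Continuous fun p : G × K => p.1 • p.2) → ∃ x : K, ∀ g : G, g • x = x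

def Oligomorphic {Y : Type} (H : Subgroup (Perm Y)) : Prop :=
  ∀ n : ℕ, Finite (MulAction.orbitRel.Quotient H (Fin n → Y))

def Canonises {X Y : Type} [TopologicalSpace Y] (G : Subgroup (Perm X)) (H : Subgroup (Perm Y))
    (f : X → Y) : Prop :=
  ∃ g ∈ closure {h : X → Y | ∃ β ∈ H, ∃ α ∈ G, h = β ∘ f ∘ α},
    ∀ (n : ℕ) (a : Fin n → X), ∀ α ∈ G, ∃ β ∈ H, g ∘ α ∘ a = β ∘ g ∘ a

lemma ev_eq {X Y ι : Type} [Finite ι] [TopologicalSpace Y] [DiscreteTopology Y] (g : X → Y)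
    (a : ι → X) : ∀ᶠ h in 𝓝 g, h ∘ a = g ∘ a := by
  simp only [funext_iff, comp_apply, eventually_all]
  exact fun i => ((continuous_apply (a i)).tendsto g).eventually (p := fun y => y = g (a i))
    (by simp [nhds_discrete])

lemma clos {α : Type} {ι : ℕ → Type} [∀ n, Finite (ι n)] (s : Set α) (hs : s.Countable)
    (φ : ∀ n, (ι n → α) → Bool → α) :
    ∃ t, s ⊆ t ∧ t.Countable ∧ ∀ n y b, (∀ i, y i ∈ t) → φ n y b ∈ t := by
  let T : ℕ → Set α := fun m => Nat.rec s (fun _ t => t ∪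
    range fun p : (Σ n, ι n → t) × Bool => φ p.1.1 (fun i => p.1.2 i) p.2) m
  have h1 (m) : (T m).Countable := by
    induction m with
    | zero => exact hs
    | succ m ih =>
      haveI := ih.to_subtype
      exact ih.union (countable_range _)
  have h2 : Monotone T := monotone_nat_of_le_succ fun m => subset_union_left
  refine ⟨⋃ m, T m, subset_iUnion T 0, countable_iUnion h1, fun n y b hy => ?_⟩
  choose m hm using fun i => mem_iUnion.1 (hy i)
  obtain ⟨M, hM⟩ := (finite_range m).bddAbove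
  exact mem_iUnion.2 ⟨M + 1, Or.inr ⟨(⟨n, fun i => ⟨y i, h2 (hM ⟨i, rfl⟩) (hm i)⟩⟩, b), rfl⟩⟩

section
variable {Ω D : Type}

def act (σ : Perm Ω) (y : Germ (cofinite : Filter Ω) D) : Germ (cofinite : Filter Ω) D :=
  y.compTendsto σ σ.injective.tendsto_cofinite

lemma act_act (σ τ : Perm Ω) (y : Germ (cofinite : Filter Ω) D) :
    act σ (act τ y) = act (τ * σ) y := y.inductionOn fun _ => rfl

lemma act_one (y : Germ (cofinite : Filter Ω) D) : act 1 y = y := y.inductionOn fun _ => rfl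

lemma homog [Countable Ω] [Infinite Ω] [Finite D] (U U' : Ω → D)
    (h : ∀ c, (U ⁻¹' {c}).Infinite ↔ (U' ⁻¹' {c}).Infinite) :
    ∃ σ : Perm Ω, U ∘ σ =ᶠ[cofinite] U' := by
  classical
  obtain ⟨c₀, h₀⟩ := Finite.exists_infinite_fiber U
  rw [infinite_coe_iff] at h₀
  have key (U : Ω → D) (h₀ : (U ⁻¹' {c₀}).Infinite) : ∃ W : Ω → D, W =ᶠ[cofinite] U ∧ ∀ c,
      ((U ⁻¹' {c}).Infinite → Infinite {a // W a = c}) ∧
      (¬ (U ⁻¹' {c}).Infinite → IsEmpty {a // W a = c}) := by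
    refine ⟨fun a => if (U ⁻¹' {U a}).Infinite then U a else c₀, ?_, fun c =>
      ⟨fun hc => (hc.mono fun a ha => ?_).to_subtype, fun hc => ⟨fun a => hc ?_⟩⟩⟩
    · refine (Finite.biUnion (toFinite {c | (U ⁻¹' {c}).Finite}) fun c hc => hc).subset
        fun a ha => mem_biUnion (x := U a) ?_ rfl
      by_contra hn
      exact ha (if_pos hn)
    · obtain rfl : U a = c := ha
      exact if_pos hc
    · have := a.2
      simp only at this
      split_ifs at this with h1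
      · exact this ▸ h1
      · exact this ▸ h₀
  obtain ⟨W, w1, w2⟩ := key U h₀
  obtain ⟨W', w1', w2'⟩ := key U' ((h c₀).1 h₀)
  have e (c) : Nonempty ({a // W' a = c} ≃ {a // W a = c}) := by
    by_cases hc : (U ⁻¹' {c}).Infinite
    · haveI := (w2 c).1 hc
      haveI := (w2' c).1 ((h c).1 hc)
      exact nonempty_equiv_of_countable
    · haveI := (w2 c).2 hc
      haveI := (w2' c).2 (mt (h c).2 hc)
      exact ⟨equivOfIsEmpty _ _⟩
  refine ⟨ofFiberEquiv fun c => (e c).some, ?_⟩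
  filter_upwards [w1', (ofFiberEquiv fun c => (e c).some).injective.tendsto_cofinite w1]
    with a h1 h2
  rw [← h1, ← ofFiberEquiv_map fun c => (e c).some]
  exact Eq.symm h2

lemma model [Countable Ω] [Infinite Ω] [Finite D] {X : Type} [Countable X] (u : X → Ω → D) :
    ∃ (Y : Type) (_ : Countable Y) (H : Subgroup (Perm Y)) (f : X → Y), Oligomorphic H ∧
      ∀ β ∈ H, ∃ σ : Perm Ω, ∀ x x', β (f x) = f x' → u x ∘ σ =ᶠ[cofinite] u x' := by
  classical
  let P : ∀ n, (Fin n → Germ (cofinite : Filter Ω) D) → Set (Fin n → D) := fun n y =>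
    {c | ((fun a i => (y i).out a) ⁻¹' {c}).Infinite}
  have h1 (n) (y y') : ∃ σ : Perm Ω, P n y = P n y' → ∀ i, act σ (y i) = y' i := by
    by_cases h : P n y = P n y'
    · obtain ⟨σ, hσ⟩ := homog _ _ fun c => Set.ext_iff.1 h c
      refine ⟨σ, fun _ i => ?_⟩
      rw [← (y i).out_eq, ← (y' i).out_eq]
      exact Germ.coe_eq.2 (hσ.mono fun a ha => congrFun ha i)
    · exact ⟨1, fun h' => absurd h' h⟩
  choose γ hγ using h1
  obtain ⟨t, t1, t2, t3⟩ := clos (ι := fun n => Option (Fin n ⊕ Fin n))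
    (range fun x => (u x : Germ cofinite D)) (countable_range _) fun n y b =>
      act (if b then γ n (fun i => y (some (.inl i))) fun i => y (some (.inr i))
        else (γ n (fun i => y (some (.inl i))) fun i => y (some (.inr i)))⁻¹) (y none)
  let H : Subgroup (Perm t) :=
    { carrier := {β | ∃ σ : Perm Ω, ∀ y, (β y).1 = act σ y.1}
      one_mem' := ⟨1, fun y => (act_one _).symm⟩
      mul_mem' := by
        rintro a b ⟨σ, hσ⟩ ⟨τ, hτ⟩
        exact ⟨τ * σ, fun y => by rw [Perm.mul_apply, hσ, hτ, act_act]⟩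
      inv_mem' := by
        rintro a ⟨σ, hσ⟩
        refine ⟨σ⁻¹, fun y => ?_⟩
        have := congrArg (act σ⁻¹) (hσ (a⁻¹ y))
        simpa [act_act, act_one] using this.symm }
  refine ⟨t, t2, H, fun x => ⟨_, t1 ⟨x, rfl⟩⟩, fun n => Finite.of_injective
    (fun q => P n fun i => (q.out i).1) fun q q' h => ?_, ?_⟩
  · rw [← q.out_eq, ← q'.out_eq]
    set σ := γ n (fun i => (q.out i).1) fun i => (q'.out i).1
    have m (z : t) (b) := t3 n (fun o => o.elim z.1 (Sum.elim (fun i => (q.out i).1)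
      fun i => (q'.out i).1)) b (by rintro (_ | i | i) <;> exact Subtype.prop _)
    let β : Perm t := ⟨fun z => ⟨act σ z, m z true⟩, fun z => ⟨act σ⁻¹ z, m z false⟩,
      fun z => Subtype.ext (by simp [act_act, act_one]),
      fun z => Subtype.ext (by simp [act_act, act_one])⟩
    exact Eq.symm
      (Quotient.sound ⟨⟨β, σ, fun _ => rfl⟩, funext fun i => Subtype.ext (hγ n _ _ h i)⟩)
  · rintro β ⟨σ, hσ⟩
    exact ⟨σ, fun x x' h => Germ.coe_eq.1 ((hσ _).symm.trans (congrArg Subtype.val h))⟩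

end

lemma ramsey {X : Type} [Countable X] {G : Subgroup (Perm X)}
    (hG : ∀ (Y : Type) [Countable Y] [TopologicalSpace Y] [DiscreteTopology Y]
      (H : Subgroup (Perm Y)), Oligomorphic H → ∀ f : X → Y, Canonises G H f)
    {k : ℕ} (a : Fin k → X) {C ι : Type} [Finite C] [Finite ι] (χ : (Fin k → X) → C) (F : ι → G) :
    ∃ α : G, ∀ j, χ ((α * F j).1 ∘ a) = χ (α.1 ∘ a) := by
  rcases isEmpty_or_nonempty (Fin k) with _ | ⟨⟨i₀⟩⟩
  · exact ⟨1, fun j => congrArg χ (Subsingleton.elim _ _)⟩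
  haveI : Nonempty (Fin k → X) := ⟨a⟩
  obtain ⟨Y, _, H, f, h1, h2⟩ := model (Ω := (Fin k → X) × ℕ) (D := Set (Fin k) × C)
    fun x ω => ({i | ω.1 i = x}, χ ω.1)
  letI : TopologicalSpace Y := ⊥
  haveI : DiscreteTopology Y := ⟨rfl⟩
  obtain ⟨g, g1, g2⟩ := hG Y H h1 f
  obtain ⟨_, ⟨β, hβ, α, hα, rfl⟩, e⟩ := (mem_closure_iff_frequently.1 g1).and_eventually
    (ev_eq g fun p : Option ι × Fin k => p.1.elim (a p.2) fun j => (F j).1 (a p.2)) |>.exists
  refine ⟨⟨α, hα⟩, fun j => ?_⟩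
  obtain ⟨β', hβ', e'⟩ := g2 k a _ (F j).2
  obtain ⟨σ, hσ⟩ := h2 (β⁻¹ * β' * β) (mul_mem (mul_mem (inv_mem hβ) hβ') hβ)
  have h3 (i) := hσ (α (a i)) (α ((F j).1 (a i))) (by
    have e1 := congrFun e (none, i)
    have e2 := congrFun e (some j, i)
    have e3 := congrFun e' i
    simp only [comp_apply, Option.elim] at e1 e2 e3
    rw [Perm.mul_apply, Perm.mul_apply, e1, ← e3, ← e2]
    simp)
  have : Tendsto (fun n : ℕ => ((⟨α, hα⟩ * F j : G).1 ∘ a, n)) cofinite cofinite :=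
    Injective.tendsto_cofinite fun _ _ h => congrArg Prod.snd h
  obtain ⟨n, hn⟩ := (this.eventually (eventually_all.2 h3)).exists
  have e4 := congrArg Prod.snd (hn i₀)
  simp only [comp_apply] at e4
  rw [← e4]
  congr 1
  funext i
  exact (Set.ext_iff.1 (congrArg Prod.fst (hn i)) i).2 rfl

lemma ea {X : Type} [TopologicalSpace X] [DiscreteTopology X] {G : Subgroup (Perm X)}
    (hG : ∀ {k : ℕ} (a : Fin k → X) {C : Type} [Finite C] (χ : (Fin k → X) → C) (F : C → G),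
      ∃ α : G, ∀ j, χ ((α * F j).1 ∘ a) = χ (α.1 ∘ a)) : ExtAmenable G := by
  classical
  intro K _ _ _ ⟨x₀⟩ _ hc
  letI : TopologicalSpace G :=
    TopologicalSpace.induced (fun g : G => (g.1 : X → X)) Pi.topologicalSpace
  by_contra hn
  push Not at hn
  choose g hg using hn
  have this (x : K) : ∃ (A : Finset X) (W' W : Set K), W' ∈ 𝓝 x ∧ (∀ y ∈ W, g x • y ∉ W) ∧
      ∀ v : G, (∀ a ∈ A, v.1 a = a) → ∀ y ∈ W', v • y ∈ W := by
    obtain ⟨U, V, hU, hV, xU, xV, hd⟩ := t2_separation (hg x)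
    have c1 : Continuous fun y : K => g x • y := hc.comp (Continuous.prodMk_right (g x))
    have : V ∩ (fun y => g x • y) ⁻¹' U ∈ 𝓝 ((1 : G) • x) := by
      rw [one_smul]
      exact (hV.inter (hU.preimage c1)).mem_nhds ⟨xV, xU⟩
    obtain ⟨N, hN, W', hW', h⟩ := mem_nhds_prod_iff.1 (hc.continuousAt (x := (1, x)) this)
    rw [nhds_induced, nhds_pi] at hN
    obtain ⟨N', hN', hN⟩ := hN
    obtain ⟨A, t, ht, hA⟩ := Filter.mem_pi'.1 hN'
    refine ⟨A, W', _, hW', fun y hy hy' => disjoint_left.1 hd hy.2 hy'.1, fun v hv y hy =>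
      h (mk_mem_prod (hN (hA fun a ha => ?_)) hy)⟩
    change v.1 a ∈ t a
    rw [hv a ha]
    exact mem_of_mem_nhds (ht a)
  choose A W' W h1 h2 h3 using this
  obtain ⟨s, hs⟩ := CompactSpace.elim_nhds_subcover W' h1
  have this (y : K) : ∃ j : s, y ∈ W' j := by
    have : y ∈ ⋃ x ∈ s, W' x := hs ▸ mem_univ y
    simpa using this
  choose c hc using this
  let a := fun i => ((s.biUnion A).equivFin.symm i).1
  have this (t) : ∃ r : G, ∀ h : G, h.1 ∘ a = t → r.1 ∘ a = t := by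
    by_cases h : ∃ h : G, h.1 ∘ a = t
    · exact h.imp fun r hr _ _ => hr
    · exact ⟨1, fun r hr => absurd ⟨r, hr⟩ h⟩
  choose r hr using this
  have key (h : G) : h⁻¹ • x₀ ∈ W (c ((r (h.1 ∘ a))⁻¹ • x₀)) := by
    have := h3 _ (h⁻¹ * r (h.1 ∘ a)) (fun b hb => ?_) _ (hc ((r (h.1 ∘ a))⁻¹ • x₀))
    · simpa [smul_smul] using this
    · have e := congrFun (hr _ h rfl) ((s.biUnion A).equivFin
        ⟨b, Finset.mem_biUnion.2 ⟨_, Subtype.prop _, hb⟩⟩)
      have e' : (r (h.1 ∘ a)).1 b = h.1 b := by simpa only [a, comp_apply, symm_apply_apply] using e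
      simp [e']
  obtain ⟨α, hα⟩ := hG a (fun t => c ((r t)⁻¹ • x₀)) fun j => (g j)⁻¹
  refine h2 _ _ (key α) ?_
  have := key (α * (g (c ((r (α.1 ∘ a))⁻¹ • x₀)))⁻¹)
  rwa [hα, mul_inv_rev, inv_inv, mul_smul] at this

lemma can {X : Type} [Countable X] [TopologicalSpace X] [DiscreteTopology X]
    {G : Subgroup (Perm X)} (hG : ExtAmenable G) (Y : Type) [TopologicalSpace Y]
    [DiscreteTopology Y] (H : Subgroup (Perm Y)) (hH : Oligomorphic H) (f : X → Y) :
    Canonises G H f := by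
  classical
  letI : TopologicalSpace G :=
    TopologicalSpace.induced (fun g : G => (g.1 : X → X)) Pi.topologicalSpace
  let O := fun n => MulAction.orbitRel.Quotient H (Fin n → Y)
  letI : ∀ n, TopologicalSpace (O n) := fun _ => ⊥
  haveI : ∀ n, DiscreteTopology (O n) := fun _ => ⟨rfl⟩
  haveI : ∀ n, Finite (O n) := hH
  let Z := ∀ p : (Σ n, Fin n → X), O p.1
  let sh : G → Z → Z := fun α z p => z ⟨p.1, α⁻¹.1 ∘ p.2⟩
  have shc : Continuous fun q : G × Z => sh q.1 q.2 := continuous_pi fun p =>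
    continuous_iff_continuousAt.2 fun q => by
      refine ContinuousAt.congr (f := fun q' : G × Z => sh q.1 q'.2 p)
        ((continuous_apply _).comp continuous_snd).continuousAt ?_
      filter_upwards [(continuous_induced_dom.comp continuous_fst).continuousAt.eventually
        (ev_eq (q.1.1 : X → X) (q.1⁻¹.1 ∘ p.2))] with q' hq
      have : q.1⁻¹.1 ∘ p.2 = q'.1⁻¹.1 ∘ p.2 := funext fun i => by
        have := congrFun hq i
        simp at this
        simp [eq_symm_apply, this]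
      exact congrArg (β := O p.1) (fun a => q'.2 ⟨p.1, a⟩) this
  let z₀ : G → Z := fun α p => Quotient.mk _ (f ∘ α.1 ∘ p.2)
  have inv (α : G) : MapsTo (sh α) (closure (range z₀)) (closure (range z₀)) :=
    MapsTo.closure (by rintro _ ⟨γ, rfl⟩; exact ⟨γ * α⁻¹, rfl⟩)
      (shc.comp (Continuous.prodMk_right α))
  letI : MulAction G (closure (range z₀)) :=
    { smul := fun α z => ⟨sh α z.1, inv α z.2⟩
      one_smul := fun z => rfl
      mul_smul := fun α β z => rfl }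
  haveI : CompactSpace (closure (range z₀)) := isCompact_iff_compactSpace.1 isClosed_closure.isCompact
  haveI : Nonempty (closure (range z₀)) := ⟨⟨z₀ 1, subset_closure ⟨1, rfl⟩⟩⟩
  obtain ⟨⟨z, hz⟩, fx⟩ := hG (closure (range z₀))
    ((shc.comp (continuous_fst.prodMk (continuous_subtype_val.comp continuous_snd))).subtype_mk _)
  have ap (p q r) : ∃ α, z₀ α p = z p ∧ z₀ α q = z q ∧ z₀ α r = z r := by
    have this (p) : ∀ᶠ w : Z in 𝓝 z, w p = z p :=
      ((continuous_apply p).tendsto z).eventually (p := fun y => y = z p)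
        (by simp [nhds_discrete])
    obtain ⟨_, ⟨α, rfl⟩, h⟩ := ((mem_closure_iff_frequently.1 hz).and_eventually
      ((this p).and ((this q).and (this r)))).exists
    exact ⟨α, h⟩
  rcases isEmpty_or_nonempty X with _ | _
  · exact ⟨f, subset_closure ⟨1, one_mem _, 1, one_mem _, rfl⟩,
      fun n a α _ => ⟨1, one_mem _, funext fun i => isEmptyElim (a i)⟩⟩
  obtain ⟨e, he⟩ := exists_surjective_nat X
  let E : ℕ → Σ n, Fin n → X := fun n => ⟨n, fun i => e i⟩
  let Q : ℕ → (X → Y) → Prop := fun n h => (∃ β ∈ H, ∃ α ∈ G, h = β ∘ f ∘ α) ∧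
    Quotient.mk _ (h ∘ (E n).2) = z (E n)
  have tr (n h) (hh : Q n h) (α : G) (hα : z₀ α (E n) = z (E n)) :
      ∃ β : H, ∀ i < n, h (e i) = β.1 (f (α.1 (e i))) := by
    obtain ⟨β, hβ⟩ := Quotient.exact (hh.2.trans hα.symm)
    exact ⟨β, fun i hi => (congrFun hβ ⟨i, hi⟩).symm⟩
  have st (n h) : ∃ h', Q n h → Q (n + 1) h' ∧ ∀ i < n, h' (e i) = h (e i) := by
    by_cases hh : Q n h
    · obtain ⟨α, a1, a2, -⟩ := ap (E n) (E (n + 1)) (E n)
      obtain ⟨β, hβ⟩ := tr n h hh α a1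
      exact ⟨β.1 ∘ f ∘ α.1, fun _ => ⟨⟨⟨β, β.2, α, α.2, rfl⟩,
        Eq.trans (Quotient.sound ⟨β, rfl⟩) a2⟩, fun i hi => (hβ i hi).symm⟩⟩
    · exact ⟨h, fun h' => absurd h' hh⟩
  choose nx hnx using st
  obtain ⟨α₀, a0, -⟩ := ap (E 0) (E 0) (E 0)
  let s : ℕ → X → Y := fun n => Nat.rec (f ∘ α₀.1) nx n
  have s1 (n) : Q n (s n) := by
    induction n with
    | zero => exact ⟨⟨1, one_mem _, α₀, α₀.2, rfl⟩, a0⟩
    | succ n ih => exact (hnx n _ ih).1
  have s2 (i m n) (h : i < m) (h' : m ≤ n) : s n (e i) = s m (e i) := by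
    induction h' with
    | refl => rfl
    | step h' ih => exact ((hnx _ _ (s1 _)).2 i (h.trans_le h')).trans ih
  have s3 (x) : ∀ᶠ n in atTop, ∃ i < n, e i = x ∧ s n x = s (surjInv he x + 1) x :=
    (eventually_gt_atTop (surjInv he x)).mono fun n hn => ⟨_, hn, surjInv_eq he x, by
      simpa [surjInv_eq he x] using s2 _ _ n (Nat.lt_succ_self _) hn⟩
  refine ⟨fun x => s (surjInv he x + 1) x, mem_closure_of_tendsto (f := s) (b := atTop)
    (tendsto_pi_nhds.2 fun x => tendsto_const_nhds.congr' ((s3 x).mono fun n ⟨_, _, _, h⟩ =>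
      h.symm)) (Eventually.of_forall fun n => (s1 n).1), fun k a α hα => ?_⟩
  obtain ⟨n, h1, h2⟩ := ((eventually_all.2 fun i => s3 (a i)).and
    (eventually_all.2 fun i => s3 (α (a i)))).exists
  obtain ⟨γ, a1, a2, a3⟩ := ap (E n) ⟨k, a⟩ ⟨k, α ∘ a⟩
  obtain ⟨β, hβ⟩ := tr n _ (s1 n) γ a1
  have : z ⟨k, α ∘ a⟩ = z ⟨k, a⟩ := congrFun (congrArg Subtype.val (fx (⟨α, hα⟩ : G)⁻¹)) ⟨k, a⟩
  obtain ⟨β', hβ'⟩ := Quotient.exact (a3.trans (this.trans a2.symm))
  refine ⟨_, (β * β' * β⁻¹).2, funext fun i => ?_⟩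
  obtain ⟨j, hj, e1, e2⟩ := h1 i
  obtain ⟨j', hj', e1', e2'⟩ := h2 i
  have e3 : β'.1 (f (γ.1 (a i))) = f (γ.1 (α (a i))) := congrFun hβ' i
  simp only [comp_apply]
  rw [← e2, ← e2', ← e1', hβ j' hj', e1', ← e1, hβ j hj, e1, ← e3]
  simp

theorem result (X : Type) [Countable X] [TopologicalSpace X] [DiscreteTopology X]
    (G : Subgroup (Perm X)) :
    (ExtAmenable G ↔ ∀ (Y : Type) [TopologicalSpace Y] [DiscreteTopology Y]
      (H : Subgroup (Perm Y)), Oligomorphic H → ∀ f : X → Y, Canonises G H f) ∧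
    (ExtAmenable G ↔ ∀ (Y : Type) [Countable Y] [TopologicalSpace Y] [DiscreteTopology Y]
      (H : Subgroup (Perm Y)), Oligomorphic H → ∀ f : X → Y, Canonises G H f) :=
  ⟨⟨fun h Y _ _ => can h Y, fun h => ea fun a _ _ => ramsey (fun Y _ _ _ => h Y) a⟩,
    fun h Y _ _ _ => can h Y, fun h => ea fun a _ _ => ramsey h a⟩

end Pool.Agent.Results.MP_6d0d7d_lc.Main
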